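import Pool.Agent.Helper15.RA.GoalsK

/-!
# RA-KT: the Tau Lemma
-/

set_option autoImplicit false

open LaurentPolynomial

noncomputable section

namespace Pool.Agent.Helper12.RA

open Pool.Agent.Helper15.RA

theorem repr_expand {R W H : Type} [CommRing R] [Ring H] [Algebra R H] (b : Module.Basis W R H)
    (A Z B : H) (w : W) :
    b.repr (A * Z * B) w = (b.repr Z).sum fun l p => p * b.repr (A * b l * B) w := by
  conv_lhs => rw [← b.linearCombination_repr Z]
  rw [Finsupp.linearCombination_apply, Finsupp.sum, Finset.mul_sum, Finset.sum_mul, map_sum,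
    Finsupp.finsetSum_apply, Finsupp.sum]
  refine Finset.sum_congr rfl fun l _ => ?_
  rw [mul_smul_comm, smul_mul_assoc, map_smul, Finsupp.smul_apply, smul_eq_mul]

section

variable {I W V H : Type} [Group W] [Ring H] [Algebra ℤ[T;T⁻¹] H] {X : Ctx I W V H}

theorem clq_tail {k : W} {K : List W} (h : X.Clq (k :: K)) : X.Clq K :=
  ⟨fun l hl => h.1 l (List.mem_cons_of_mem _ hl), h.2.tail⟩

theorem clq_replace {u : V} {k l : W} {K : List W} (h : X.Clq (k :: K)) (hk : k ∈ X.G u)
    (hl : l ∈ X.G u) (hl1 : l ≠ 1) : X.Clq (l :: K) := by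
  have hk1 : k ≠ 1 := (h.1 k List.mem_cons_self).1
  refine ⟨fun m hm => ?_, ?_⟩
  · rcases List.mem_cons.1 hm with rfl | hm
    · exact ⟨hl1, u, hl⟩
    · exact h.1 m (List.mem_cons_of_mem _ hm)
  · have h2 := List.pairwise_cons.1 h.2
    refine List.pairwise_cons.2 ⟨fun m hm => ?_, h2.2⟩
    obtain ⟨u', v', ha, hu', hv'⟩ := h2.1 m hm
    have : u' = u := by
      by_contra hne
      exact hk1 (X.gp.disj u' u hne k hu' hk)
    subst this
    exact ⟨u', v', ha, hl, hv'⟩

theorem sl_clq (e1 : E_1) {K : List W} (h : X.Clq K) : X.sl K.prod = K.length :=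
  (e1 V W X.Γ X.G X.sl X.gp).1 K h

theorem red_perm (e1 : E_1) {x y : W} {K K' : List W} (h : X.Red x K y) (hp : K.Perm K') :
    X.Red x K' y := by
  obtain ⟨h1, h2, h3⟩ := h
  obtain ⟨h4, h5⟩ := (e1 V W X.Γ X.G X.sl X.gp).2.1 K K' h1 hp
  refine ⟨h4, ?_, ?_⟩
  · rw [← h5, h2, hp.length_eq]
  · rw [← h5, h3, hp.length_eq]

theorem sl_syl {k : W} {K : List W} (h : X.Clq (k :: K)) : X.sl k = 1 := by
  obtain ⟨hk1, v, hk⟩ := h.1 k List.mem_cons_self
  exact X.gp.syl v k hk hk1

theorem red_tail (e1 : E_1) {x y k : W} {K : List W} (h : X.Red x (k :: K) y) : X.Red x K y := by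
  have h' : X.Red x (K ++ [k]) y := red_perm e1 h (List.perm_append_singleton k K).symm
  obtain ⟨h1, h2, h3⟩ := h
  obtain ⟨-, h5, h6⟩ := h'
  have hk := sl_syl h1
  have hc := clq_tail h1
  have hl := sl_clq e1 hc
  refine ⟨hc, ?_, ?_⟩
  · rw [List.prod_append, List.prod_singleton, ← mul_assoc, List.length_append,
      List.length_singleton] at h5
    have a1 := X.gp.mul (x * K.prod) k
    have a2 := X.gp.mul x K.prod
    omega
  · rw [List.prod_cons, mul_assoc, List.length_cons] at h3
    have a1 := X.gp.mul k (K.prod * y)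
    have a2 := X.gp.mul K.prod y
    omega

theorem red_sl (e1 : E_1) {x y k : W} {K : List W} (h : X.Red x (k :: K) y) :
    X.sl (x * k) = X.sl x + 1 := by
  obtain ⟨h1, h2, -⟩ := h
  have hk := sl_syl h1
  have hl := sl_clq e1 (clq_tail h1)
  rw [List.prod_cons, ← mul_assoc, List.length_cons] at h2
  have a1 := X.gp.mul (x * k) K.prod
  have a2 := X.gp.mul x k
  omega

theorem red_move (e1 : E_1) {x y k : W} {K : List W} (h : X.Red x (k :: K) y) :
    X.Red (x * k) K y := by
  have h4 := red_sl e1 h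
  have h5 := red_tail e1 h
  refine ⟨h5.1, ?_, h5.2.2⟩
  have h2 := h.2.1
  rw [List.prod_cons, ← mul_assoc, List.length_cons] at h2
  omega

theorem red_replace (e1 : E_1) {u : V} {x y k l : W} {K : List W} (h : X.Red x (k :: K) y)
    (hk : k ∈ X.G u) (hl : l ∈ X.G u) (hl1 : l ≠ 1) : X.Red x (l :: K) y := by
  have h5 := red_tail e1 h
  have hk1 : k ≠ 1 := (h.1.1 k List.mem_cons_self).1
  have hlen := sl_clq e1 h5.1
  have h3 := (e1 V W X.Γ X.G X.sl X.gp).2.2.1 u k l
  refine ⟨clq_replace h.1 hk hl hl1, ?_, ?_⟩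
  · have h6 := h3 x K.prod hk hk1 hl hl1 (by
      have := h.2.1
      rw [List.prod_cons, ← mul_assoc, List.length_cons] at this
      omega)
    rw [List.prod_cons, ← mul_assoc, List.length_cons]
    omega
  · have h6 := h3 1 (K.prod * y) hk hk1 hl hl1 (by
      have := h.2.2
      rw [List.prod_cons, mul_assoc, List.length_cons] at this
      rw [one_mul, X.gp.one]
      have := h5.2.2
      omega)
    rw [one_mul, X.gp.one] at h6
    rw [List.prod_cons, mul_assoc, List.length_cons]
    have := h5.2.2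
    omega

theorem t_mul {x y : W} (h : X.sl (x * y) = X.sl x + X.sl y) :
    X.D.t x * X.D.t y = X.D.t (x * y) :=
  X.D.mul x y (X.len x y h)

theorem claim0 (h1 : H_1) (e1 : E_1) (y : W) (K : List W) : ∀ (x h : W), X.Red x (h :: K) y →
    X.D.t.repr (X.D.t (x * h) * (K.map X.D.c).prod * X.D.t y) 1 = 0 := by
  have H1 := h1 I W H X.M X.cs X.L X.D.toHecke0
  induction K with
  | nil =>
    intro x h hr
    rw [List.map_nil, List.prod_nil, mul_one]
    refine H1.2.2.2.2.2.2.2 (x * h) y ?_
    intro hxy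
    have a1 := red_sl e1 hr
    have a2 := hr.2.2
    rw [List.prod_singleton, List.length_singleton] at a2
    have b1 : x * h = y⁻¹ := eq_inv_of_mul_eq_one_left hxy
    have b2 : h * y = x⁻¹ := by
      rw [mul_assoc] at hxy
      exact eq_inv_of_mul_eq_one_right hxy
    rw [b1, X.gp.inv] at a1
    rw [b2, X.gp.inv] at a2
    omega
  | cons k K ih =>
    intro x h hr
    rw [List.map_cons, List.prod_cons, ← mul_assoc, mul_assoc (X.D.t (x * h) * X.D.c k),
      repr_expand, Finsupp.sum]
    refine Finset.sum_eq_zero fun l hl => ?_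
    have hl0 : X.D.t.repr (X.D.c k) l ≠ 0 := Finsupp.mem_support_iff.1 hl
    have hr1 : X.Red x (k :: h :: K) y := red_perm e1 hr (List.Perm.swap _ _ _)
    obtain ⟨hk1, u, hk⟩ := hr1.1.1 k List.mem_cons_self
    have hlu : l ∈ X.G u := X.supp u k hk l hl0
    by_cases hl1 : l = 1
    · subst hl1
      have e : X.D.t 1 = 1 := H1.1
      rw [e, mul_one, ← mul_assoc, ih x h (red_tail e1 hr1), mul_zero]
    · have hr2 : X.Red x (l :: h :: K) y := red_replace e1 hr1 hk hlu hl1
      have hr3 : X.Red x (h :: l :: K) y := red_perm e1 hr2 (List.Perm.swap _ _ _)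
      have hr4 := red_move e1 hr3
      have hs := red_sl e1 hr4
      have hsl : X.sl l = 1 := X.gp.syl u l hlu hl1
      have ht : X.D.t (x * h) * X.D.t l = X.D.t (x * h * l) := t_mul (by omega)
      have hc : h * l = l * h := by
        have := ((e1 V W X.Γ X.G X.sl X.gp).2.1 _ _ hr2.1 (List.Perm.swap h l K)).2
        rw [List.prod_cons, List.prod_cons, List.prod_cons, List.prod_cons, ← mul_assoc,
          ← mul_assoc] at this
        exact (mul_right_cancel this).symm
      have hr5 := red_move e1 hr2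
      rw [ht, mul_assoc x h l, hc, ← mul_assoc x l h, ← mul_assoc, ih (x * l) h hr5, mul_zero]

theorem main (h1 : H_1) (e1 : E_1) (y : W) (K : List W) : ∀ (x : W), X.Red x K y →
    DegLE (-(X.aK K : ℤ)) (X.D.t.repr (X.D.t x * (K.map X.D.c).prod * X.D.t y) 1) := by
  have H1 := h1 I W H X.M X.cs X.L X.D.toHecke0
  induction K with
  | nil =>
    intro x hr
    rw [List.map_nil, List.prod_nil, mul_one, Ctx.aK_nil]
    by_cases hxy : x * y = 1
    · have e : X.D.t.repr (X.D.t x * X.D.t y) 1 = 1 := H1.2.2.2.2.2.2.1 x y hxy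
      rw [e]
      exact DegLE.one (by simp)
    · have e : X.D.t.repr (X.D.t x * X.D.t y) 1 = 0 := H1.2.2.2.2.2.2.2 x y hxy
      rw [e]
      exact DegLE.zero _
  | cons k K ih =>
    intro x hr
    rw [List.map_cons, List.prod_cons, ← mul_assoc, mul_assoc (X.D.t x * X.D.c k),
      repr_expand, Finsupp.sum]
    refine DegLE.sum fun l hl => ?_
    have hl0 : X.D.t.repr (X.D.c k) l ≠ 0 := Finsupp.mem_support_iff.1 hl
    obtain ⟨hk1, u, hk⟩ := hr.1.1 k List.mem_cons_self
    have hlu : l ∈ X.G u := X.supp u k hk l hl0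
    by_cases hl1 : l = 1
    · subst hl1
      have e : X.D.t 1 = 1 := H1.1
      rw [e, mul_one, ← mul_assoc]
      refine DegLE.mul_le (X.p1 u k hk) (ih x (red_tail e1 hr)) ?_
      rw [Ctx.aK_cons]
      push_cast
      omega
    · have hr2 : X.Red x (l :: K) y := red_replace e1 hr hk hlu hl1
      have hs := red_sl e1 hr2
      have hsl : X.sl l = 1 := X.gp.syl u l hlu hl1
      have ht : X.D.t x * X.D.t l = X.D.t (x * l) := t_mul (by omega)
      rw [ht, ← mul_assoc, claim0 h1 e1 y K x l hr2, mul_zero]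
      exact DegLE.zero _

end

theorem h_kt (h1 : H_1) (h2 : E_1) : K_T := by
  intro I W V H _ _ _ X x K y hr
  exact main h1 h2 y K x hr

end Pool.Agent.Helper12.RA
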